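import Pool.Agent.helper52.HY.SpecU

set_option autoImplicit false

open Complex Metric Set Filter Topology MeasureTheory
open Pool.Agent.helper98.ILF Pool.Agent.helper16.Multibrot

noncomputable section

namespace HY

lemma CYU_hasDeriv (n : ℕ) (c : ℂ) (k : ℕ) : Differentiable ℂ ((fz n c)^[k]) := by
  have h : Differentiable ℂ (fz n c) := by
    have : fz n c = fun z => z ^ n + c := rfl
    rw [this]; fun_prop
  exact h.iterate k

lemma CYU_filled {n : ℕ} (hn : 2 ≤ n) (c z : ℂ) (k : ℕ) (hk : 1 ≤ k) (hz : (fz n c)^[k] z = z) : z ∈ filled n c := by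
  intro i
  by_contra hlt
  rw [not_le] at hlt
  set w := (fun z : ℂ => z ^ n + c)^[i] z with hw
  have hper : (fun z : ℂ => z ^ n + c)^[k] w = w := by
    rw [hw, ← Function.iterate_add_apply, add_comm, Function.iterate_add_apply]
    congr 1
  have h1 := growth_iterate hn hlt.le k
  rw [hper] at h1
  have h2 : (2 : ℝ) ≤ 2 ^ k := by
    calc (2 : ℝ) = 2 ^ 1 := by norm_num
      _ ≤ 2 ^ k := pow_le_pow_right₀ (by norm_num) hk
  have h3 := norm_nonneg c
  nlinarith

theorem CYU (hEXU : EXU_stmt) : CYU_stmt := by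
  intro n hn r hr ε hε
  obtain ⟨C, hC, θ, hθ, hE⟩ := hEXU n hn r hr ε hε
  refine ⟨θ, hθ, ?_⟩
  intro c hc hdis k z hk hz hfar
  have hfil := CYU_filled hn c z k hk hz
  have hper : Function.IsPeriodicPt (fz n c) k z := hz
  have hda : HasDerivAt ((fz n c)^[k]) (deriv ((fz n c)^[k]) z) z := (CYU_hasDeriv n c k z).hasDerivAt
  have hj : ∀ j : ℕ, C * (θ ^ k) ^ j ≤ ‖deriv ((fz n c)^[k]) z‖ ^ j := by
    intro j
    have h1 := hE c hc hdis (k * j) z hfil (by
      intro i _
      rw [← hper.iterate_mod_apply i]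
      exact hfar _ (Nat.mod_lt _ hk))
    have h2 : HasDerivAt ((fz n c)^[k * j]) (deriv ((fz n c)^[k]) z ^ j) z := by
      rw [Function.iterate_mul]
      exact hda.iterate z hz j
    rw [h2.deriv, norm_pow, pow_mul] at h1
    exact h1
  by_contra hlt
  rw [not_le] at hlt
  have hθk : 0 < θ ^ k := by positivity
  obtain ⟨j, hj'⟩ := exists_pow_lt_of_lt_one hC ((div_lt_one hθk).2 hlt)
  have h1 := hj j
  rw [div_pow, div_lt_iff₀ (by positivity)] at hj'
  linarith

end HY
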